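import Pool.Agent.Lib.D1W.AC
import Pool.Agent.Lib.D1W.AU
import Pool.Agent.Lib.D1W.AT

open Filter MeasureTheory ProbabilityTheory
open Pool.Agent.Lib.MP_d1f1b2_pr

namespace Pool.Agent.Results.MP_d1f1b2_pr.BallGrowth

/-- `h S` is the average of the whole-plane GFF over the circle inscribed in the dyadic square `S`.
For `√2 ≤ Q < 2` the graph balls of the tiling grow exponentially: almost surely, about every tile,
the ball of radius `r` has between `exp (c r)` and `exp (C r)` tiles for all large `r`. -/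
theorem result (Q : ℝ) (hQ : √2 ≤ Q) (hQ2 : Q < 2) : ∃ c C : ℝ, 0 < c ∧
    ∀ {Ω : Type*} [MeasurableSpace Ω] (P : Measure Ω) [IsProbabilityMeasure P]
      (h : Sq → Ω → ℝ), IsGaussianProcess h P → (∀ S, ∫ ω, h S ω ∂P = 0) →
      (∀ S T, covariance (h S) (h T) P = gffCov S T) → ∀ ε > 0, ∀ᵐ ω ∂P,
        (∃ S, IsTile Q ε (fun S => h S ω) S ∧ 0 ∈ S.carrier) ∧
        ∀ S, IsTile Q ε (fun S => h S ω) S → ∀ᶠ r : ℕ in atTop,
          Real.exp (c * r) ≤ {T | (tiling Q ε fun S => h S ω).edist S T ≤ r}.ncard ∧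
          ({T | (tiling Q ε fun S => h S ω).edist S T ≤ r}.ncard : ℝ) ≤ Real.exp (C * r) := by
  have h0 : 0 < Q := (Real.sqrt_pos.2 two_pos).trans_le hQ
  have h2 : 2 ≤ Q ^ 2 := (Real.sqrt_le_left h0.le).1 hQ
  obtain ⟨c, hc, r, hL⟩ := tree_as h0 hQ2 h2
  obtain ⟨C, hU⟩ := upper_as h0 hQ2 h2
  exact ⟨c / 2, 2 * |C|, half_pos hc, fun P _ h hG hm hv ε hε =>
    growth_of h0 h2 hc (fun _ hh => hL hh) (fun _ hh => hU hh) hG hm hv hε⟩

end Pool.Agent.Results.MP_d1f1b2_pr.BallGrowth
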