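import Pool.Agent.Lib.D1W.UF

open Filter MeasureTheory ProbabilityTheory
open scoped Topology BoundedContinuousFunction
open Pool.Agent.Lib.MP_d1f1b2_pr

namespace Pool.Agent.Results.MP_d1f1b2_pr.Classification

/-- `h S` is the average of the whole-plane GFF over the circle inscribed in the dyadic square `S`.
(1) If the rescaled rooted tilings converge in law in the local GHP topology (directly, or after
replacing them by random boundedly compact spaces `Y ε` that are close to them in probability),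
then `a ε` does not tend to `0` and the limit is almost surely uniformly discrete; for
`Q ^ 2 < 2` (that is `c_M > 13`) the limit is almost surely a single point.
(2) For `2 ≤ Q ^ 2` the unscaled tiling (`a = b = 1`), rooted at the tile whose lower left corner
is `0`, does converge in law, and the limit is almost surely unbounded with non-zero measure. -/
theorem result (Q : ℝ) (hQ : 0 < Q) (hQ2 : Q < 2)
    {Ω : Type*} [MeasurableSpace Ω] (P : Measure Ω) [IsProbabilityMeasure P]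
    (h : Sq → Ω → ℝ) (hG : IsGaussianProcess h P) (hmean : ∀ S, ∫ ω, h S ω ∂P = 0)
    (hcov : ∀ S T, covariance (h S) (h T) P = gffCov S T) :
    (∀ ρ : ℝ → Ω → Sq,
      (∀ ε > 0, ∀ᵐ ω ∂P, IsTile Q ε (fun S => h S ω) (ρ ε ω) ∧ 0 ∈ (ρ ε ω).carrier) →
      ∀ (a b : ℝ → ℝ) (ha : ∀ ε, 0 < a ε), (∀ ε, 0 < b ε) →
      ∀ (Y : ℝ → Ω → BCMM) (ν : Measure BCMM), IsProbabilityMeasure ν → (∀ ε, Measurable (Y ε)) →
      (∀ η > 0, Tendsto (fun ε => P {ω | ¬ Close η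
        (rescaled (tiling Q ε fun S => h S ω) (ρ ε ω) (a ε) (b ε) (ha ε)) (Y ε ω).toPMM})
        (𝓝[>] 0) (𝓝 0)) →
      (∀ F : BCMM →ᵇ ℝ, Tendsto (fun ε => ∫ ω, F (Y ε ω) ∂P) (𝓝[>] 0) (𝓝 (∫ A, F A ∂ν))) →
      (∃ δ > 0, (∃ᶠ ε in 𝓝[>] 0, δ ≤ a ε) ∧ ∀ᵐ A ∂ν, ∀ x y : A.X, x ≠ y → δ ≤ dist x y) ∧
        (Q ^ 2 < 2 → ∀ᵐ A ∂ν, Subsingleton A.X)) ∧
    (2 ≤ Q ^ 2 → ∃ (N : ℝ → Ω → ℤ) (Y : ℝ → Ω → BCMM) (ν : Measure BCMM),
      IsProbabilityMeasure ν ∧ (∀ ε, Measurable (Y ε)) ∧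
      (∀ ε > 0, ∀ᵐ ω ∂P, IsTile Q ε (fun S => h S ω) ⟨N ε ω, 0, 0⟩ ∧ (Y ε ω).toPMM =
        rescaled (tiling Q ε fun S => h S ω) ⟨N ε ω, 0, 0⟩ 1 1 one_pos) ∧
      (∀ F : BCMM →ᵇ ℝ, Tendsto (fun ε => ∫ ω, F (Y ε ω) ∂P) (𝓝[>] 0) (𝓝 (∫ A, F A ∂ν))) ∧
      ∀ᵐ A ∂ν, (∀ R : ℝ, ∃ x, R < dist A.root x) ∧ A.μ ≠ 0) :=
  ⟨fun ρ hρ a b ha hb Y ν _ hY hclose hconv =>
    final hQ hQ2 hG hmean hcov ρ hρ a b ha hb Y hY hclose ν hconv,
    fun h2 => final_unscaled hQ h2 hG hmean hcov⟩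

end Pool.Agent.Results.MP_d1f1b2_pr.Classification
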