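import Pool.Agent.Lib.D1W.Crit

open Filter MeasureTheory ProbabilityTheory
open scoped ENNReal Topology BoundedContinuousFunction
open Pool.Agent.Lib.MP_d1f1b2_pr

namespace Pool.Agent.Results.MP_d1f1b2_pr.MassVanishes

/-- `h S` is the average of the whole-plane GFF over the circle inscribed in the dyadic square `S`.
If `a ε → 0` and the masses of all balls about the root of the rescaled tiling are tight, then
these masses tend to `0` in probability along a sequence `ε → 0`. -/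
theorem result (Q : ℝ) (hQ : 0 < Q) (hQ2 : Q < 2)
    {Ω : Type*} [MeasurableSpace Ω] (P : Measure Ω) [IsProbabilityMeasure P]
    (h : Sq → Ω → ℝ) (hG : IsGaussianProcess h P) (hmean : ∀ S, ∫ ω, h S ω ∂P = 0)
    (hcov : ∀ S T, covariance (h S) (h T) P = gffCov S T)
    (ρ : ℝ → Ω → Sq)
    (hρ : ∀ ε > 0, ∀ᵐ ω ∂P, IsTile Q ε (fun S => h S ω) (ρ ε ω) ∧ 0 ∈ (ρ ε ω).carrier)
    (a b : ℝ → ℝ) (ha : ∀ ε, 0 < a ε) (hb : ∀ ε, 0 < b ε)
    (ha0 : Tendsto a (𝓝[>] 0) (𝓝 0))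
    (htight : ∀ R : ℝ, ∀ η : ℝ≥0∞, 0 < η → ∃ K < ∞, ∀ᶠ ε in 𝓝[>] 0, P {ω | K < (rescaled
      (tiling Q ε fun S => h S ω) (ρ ε ω) (a ε) (b ε) (ha ε)).ballMass R} ≤ η)
    (r : ℝ) (m η : ℝ≥0∞) (hm : 0 < m) (hη : 0 < η) :
    ∃ᶠ ε in 𝓝[>] 0, P {ω | m ≤ (rescaled
      (tiling Q ε fun S => h S ω) (ρ ε ω) (a ε) (b ε) (ha ε)).ballMass r} ≤ η :=
  mass_zero hQ hQ2 (hypG2 hQ hQ2) hG hmean hcov ρ hρ a b ha hb ha0
    htight r m η hm hη

end Pool.Agent.Results.MP_d1f1b2_pr.MassVanishes
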