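import Pool.Agent.Lib.D1W.Crit

open Filter MeasureTheory ProbabilityTheory
open scoped ENNReal Topology BoundedContinuousFunction
open Pool.Agent.Lib.MP_d1f1b2_pr

namespace Pool.Agent.Results.MP_d1f1b2_pr.NoVagueLimit

/-- `h S` is the average of the whole-plane GFF over the circle inscribed in the dyadic square `S`.
If the rescaled rooted tilings converge in law in the local Gromov-Prokhorov (Gromov-vague)
topology (directly, or after replacing them by random spaces `Y ε` close to them in probability),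
where the limit need not be boundedly compact, then the limit measure is zero when `a ε → 0`,
has uniformly discrete support when `a ε` does not tend to `0`, and has at most one
point in its support when `Q ^ 2 < 2`. -/
theorem result (Q : ℝ) (hQ : 0 < Q) (hQ2 : Q < 2)
    {Ω : Type*} [MeasurableSpace Ω] (P : Measure Ω) [IsProbabilityMeasure P]
    (h : Sq → Ω → ℝ) (hG : IsGaussianProcess h P) (hmean : ∀ S, ∫ ω, h S ω ∂P = 0)
    (hcov : ∀ S T, covariance (h S) (h T) P = gffCov S T)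
    (ρ : ℝ → Ω → Sq)
    (hρ : ∀ ε > 0, ∀ᵐ ω ∂P, IsTile Q ε (fun S => h S ω) (ρ ε ω) ∧ 0 ∈ (ρ ε ω).carrier)
    (a b : ℝ → ℝ) (ha : ∀ ε, 0 < a ε) (hb : ∀ ε, 0 < b ε)
    (Y : ℝ → Ω → BFMM) (hY : ∀ ε, Measurable (Y ε))
    (hclose : ∀ η > 0, Tendsto (fun ε => P {ω | ¬ CloseP η
      (rescaled (tiling Q ε fun S => h S ω) (ρ ε ω) (a ε) (b ε) (ha ε)) (Y ε ω).toPMM})
      (𝓝[>] 0) (𝓝 0))
    (ν : Measure BFMM) [IsProbabilityMeasure ν]
    (hconv : ∀ F : BFMM →ᵇ ℝ,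
      Tendsto (fun ε => ∫ ω, F (Y ε ω) ∂P) (𝓝[>] 0) (𝓝 (∫ A, F A ∂ν))) :
    (Tendsto a (𝓝[>] 0) (𝓝 0) → ∀ᵐ A ∂ν, A.μ = 0) ∧
    (¬ Tendsto a (𝓝[>] 0) (𝓝 0) →
      ∃ δ > 0, ∀ᵐ A ∂ν, ∀ x ∈ A.μ.support, ∀ y ∈ A.μ.support, x ≠ y → δ ≤ dist x y) ∧
    (Q ^ 2 < 2 → ∀ᵐ A ∂ν, A.μ.support.Subsingleton) :=
  have H := final_gp hQ hQ2 hG hmean hcov ρ hρ a b ha hb Y hY hclose ν hconv
  ⟨H.1 (hypG2 hQ hQ2), H.2⟩

end Pool.Agent.Results.MP_d1f1b2_pr.NoVagueLimit
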